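import Pool.Agent.L0h50.SB.Stm

/-!
# SB, module EQ: equivalence of quartic forms
-/

set_option autoImplicit false

open NumberField IsDedekindDomain
open scoped Classical

namespace Pool.Agent.L0h50.SB

open Pool.Agent.L0h45.AR (Q4)
open Pool.Agent.L0h50.NR (mp Eqv NoRoot Den DenQ Bd)

section ring

variable {R : Type} [CommRing R]

theorem sub_sub (G : Q4 R) (p q r s p' q' r' s' : R) : (G.sub p q r s).sub p' q' r' s' =
    G.sub (p * p' + q * r') (p * q' + q * s') (r * p' + s * r') (r * q' + s * s') := by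
  ext <;> simp only [Q4.sub] <;> ring

theorem sc_sub (t : R) (G : Q4 R) (p q r s : R) : (sc t G).sub p q r s = sc t (G.sub p q r s) := by
  ext <;> simp only [Q4.sub, sc] <;> ring

theorem sc_sc (t u : R) (G : Q4 R) : sc t (sc u G) = sc (t * u) G := by
  ext <;> simp only [sc] <;> ring

theorem sc_one (G : Q4 R) : sc 1 G = G := by
  ext <;> simp only [sc] <;> ring

theorem sub_one (G : Q4 R) : G.sub 1 0 0 1 = G := by
  ext <;> simp only [Q4.sub] <;> ring

theorem sub_diag (G : Q4 R) (t : R) : G.sub t 0 0 t = sc (t ^ 4) G := by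
  ext <;> simp only [Q4.sub, sc] <;> ring

theorem I_sub (G : Q4 R) (p q r s : R) : (G.sub p q r s).I = (p * s - q * r) ^ 4 * G.I := by
  simp only [Q4.I, Q4.sub]
  ring

theorem J_sub (G : Q4 R) (p q r s : R) : (G.sub p q r s).J = (p * s - q * r) ^ 6 * G.J := by
  simp only [Q4.J, Q4.sub]
  ring

theorem I_sc (t : R) (G : Q4 R) : (sc t G).I = t ^ 2 * G.I := by
  simp only [Q4.I, sc]
  ring

theorem J_sc (t : R) (G : Q4 R) : (sc t G).J = t ^ 3 * G.J := by
  simp only [Q4.J, sc]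
  ring

theorem val_sub (G : Q4 R) (p q r s x y : R) : val (G.sub p q r s) x y =
    val G (p * x + q * y) (r * x + s * y) := by
  simp only [val, Q4.sub]
  ring

theorem val_sc (t : R) (G : Q4 R) (x y : R) : val (sc t G) x y = t * val G x y := by
  simp only [val, sc]
  ring

theorem a_sub (G : Q4 R) (p q r s : R) : (G.sub p q r s).a = val G p r := by
  simp only [val, Q4.sub]

end ring

section field

variable {K : Type} [Field K]

theorem sc_inj {t : K} (ht : t ≠ 0) {G H : Q4 K} (h : sc t G = sc t H) : G = H := by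
  have := congrArg (sc t⁻¹) h
  rwa [sc_sc, sc_sc, inv_mul_cancel₀ ht, sc_one, sc_one] at this

theorem Equ.refl (G : Q4 K) : Equ G G := ⟨1, 0, 0, 1, by simp, by
  rw [sub_one]
  simp [sc_one]⟩

theorem Equ.trans {G H N : Q4 K} (h1 : Equ G H) (h2 : Equ H N) : Equ G N := by
  obtain ⟨p, q, r, s, hd, h⟩ := h1
  obtain ⟨p', q', r', s', hd', h'⟩ := h2
  have hdet : (p * p' + q * r') * (r * q' + s * s') - (p * q' + q * s') * (r * p' + s * r') =
      (p * s - q * r) * (p' * s' - q' * r') := by ring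
  refine ⟨p * p' + q * r', p * q' + q * s', r * p' + s * r', r * q' + s * s', ?_, ?_⟩
  · rw [hdet]
    exact mul_ne_zero hd hd'
  · rw [hdet, ← sub_sub, ← h, sc_sub, ← h', sc_sc, mul_pow]

theorem Equ.symm {G H : Q4 K} (h : Equ G H) : Equ H G := by
  obtain ⟨p, q, r, s, hd, h⟩ := h
  have hdet : s * p - -q * -r = p * s - q * r := by ring
  refine ⟨s, -q, -r, p, by rwa [hdet], ?_⟩
  refine sc_inj (pow_ne_zero 2 hd) ?_
  rw [hdet, ← sc_sub, h, sub_sub, sc_sc]
  have e1 : p * s + q * -r = p * s - q * r := by ring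
  have e2 : p * -q + q * p = 0 := by ring
  have e3 : r * s + s * -r = 0 := by ring
  have e4 : r * -q + s * p = p * s - q * r := by ring
  rw [e1, e2, e3, e4, sub_diag]
  congr 1
  ring

theorem Equ.of_sub {G : Q4 K} {p q r s : K} (h : p * s - q * r = 1) : Equ G (G.sub p q r s) :=
  ⟨p, q, r, s, by rw [h]; exact one_ne_zero, by rw [h, one_pow, sc_one]⟩

theorem Equ.of_eqv {G H : Q4 K} (h : Eqv G H) : Equ G H := by
  obtain ⟨p, q, r, s, h1, rfl⟩ := h
  exact Equ.of_sub h1

theorem Equ.I_eq {G H : Q4 K} (h : Equ G H) : H.I = G.I := by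
  obtain ⟨p, q, r, s, hd, h⟩ := h
  have h1 := I_sc ((p * s - q * r) ^ 2) H
  rw [h, I_sub, ← pow_mul] at h1
  exact (mul_left_cancel₀ (pow_ne_zero _ hd) h1).symm

theorem Equ.J_eq {G H : Q4 K} (h : Equ G H) : H.J = G.J := by
  obtain ⟨p, q, r, s, hd, h⟩ := h
  have h1 := J_sc ((p * s - q * r) ^ 2) H
  rw [h, J_sub, ← pow_mul] at h1
  exact (mul_left_cancel₀ (pow_ne_zero _ hd) h1).symm

theorem eqv_refl (G : Q4 K) : Eqv G G := ⟨1, 0, 0, 1, by ring, (sub_one G).symm⟩

theorem eqv_trans {G H N : Q4 K} (h1 : Eqv G H) (h2 : Eqv H N) : Eqv G N := by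
  obtain ⟨p, q, r, s, hd, rfl⟩ := h1
  obtain ⟨p', q', r', s', hd', rfl⟩ := h2
  refine ⟨p * p' + q * r', p * q' + q * s', r * p' + s * r', r * q' + s * s', ?_, sub_sub _ _ _ _ _ _ _ _ _⟩
  linear_combination (p' * s' - q' * r') * hd + hd'

/-- the equivalence relation -/
def setoid (K : Type) [Field K] : Setoid (Q4 K) where
  r := Equ
  iseqv := ⟨Equ.refl, Equ.symm, Equ.trans⟩

/-- a form with a root has a leading coefficient zero after some substitution -/
theorem root_iff (G : Q4 K) : ¬ NoRoot G ↔ ∃ x y : K, (x ≠ 0 ∨ y ≠ 0) ∧ val G x y = 0 := by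
  constructor
  · intro h
    unfold NoRoot at h
    push Not at h
    obtain ⟨H, ⟨p, q, r, s, h1, rfl⟩, h2⟩ := h
    refine ⟨p, r, ?_, by rwa [a_sub] at h2⟩
    by_contra hc
    push Not at hc
    rw [hc.1, hc.2] at h1
    simp at h1
  · rintro ⟨x, y, hxy, h⟩ hn
    rcases eq_or_ne x 0 with hx | hx
    · have hy : y ≠ 0 := by
        rcases hxy with h' | h'
        · exact absurd hx h'
        · exact h'
      refine hn _ ⟨x, -y⁻¹, y, 0, by field_simp; ring, rfl⟩ ?_
      rw [a_sub]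
      exact h
    · refine hn _ ⟨x, 0, y, x⁻¹, by field_simp; ring, rfl⟩ ?_
      rw [a_sub]
      exact h

/-- a root is preserved under equivalence -/
theorem root_equ {G H : Q4 K} (h : Equ G H) (hH : ¬ NoRoot H) : ¬ NoRoot G := by
  rw [root_iff] at hH ⊢
  obtain ⟨p, q, r, s, hd, h⟩ := h
  obtain ⟨x, y, hxy, hv⟩ := hH
  refine ⟨p * x + q * y, r * x + s * y, ?_, ?_⟩
  · by_contra hc
    push Not at hc
    obtain ⟨h1, h2⟩ := hc
    have e1 : (p * s - q * r) * x = 0 := by linear_combination s * h1 - q * h2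
    have e2 : (p * s - q * r) * y = 0 := by linear_combination p * h2 - r * h1
    rcases hxy with h' | h'
    · exact h' ((mul_eq_zero.1 e1).resolve_left hd)
    · exact h' ((mul_eq_zero.1 e2).resolve_left hd)
  · rw [← val_sub, ← h, val_sc, hv, mul_zero]

/-- solubility is preserved -/
theorem Sol.equ {G H : Q4 K} (h : Equ G H) (hG : Sol H) : Sol G := by
  obtain ⟨p, q, r, s, hd, h⟩ := h
  obtain ⟨x, y, z, hz, hv⟩ := hG
  refine ⟨p * x + q * y, r * x + s * y, (p * s - q * r) * z, mul_ne_zero hd hz, ?_⟩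
  rw [← val_sub, ← h, val_sc, ← hv]
  ring

end field

section mp

variable {K L : Type} [Field K] [Field L]

theorem mp_sub (φ : K →+* L) (G : Q4 K) (p q r s : K) :
    mp φ (G.sub p q r s) = (mp φ G).sub (φ p) (φ q) (φ r) (φ s) := by
  ext <;> simp only [NR.mp, Q4.sub, map_add, map_mul, map_pow, map_ofNat]

theorem mp_sc (φ : K →+* L) (t : K) (G : Q4 K) : mp φ (sc t G) = sc (φ t) (mp φ G) := by
  ext <;> simp only [NR.mp, sc, map_mul]

theorem mp_I (φ : K →+* L) (G : Q4 K) : (mp φ G).I = φ G.I := by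
  simp only [NR.mp, Q4.I, map_add, map_sub, map_mul, map_pow, map_ofNat]

theorem mp_J (φ : K →+* L) (G : Q4 K) : (mp φ G).J = φ G.J := by
  simp only [NR.mp, Q4.J, map_add, map_sub, map_mul, map_pow, map_ofNat]

theorem Equ.mp (φ : K →+* L) {G H : Q4 K} (h : Equ G H) : Equ (NR.mp φ G) (NR.mp φ H) := by
  obtain ⟨p, q, r, s, hd, h⟩ := h
  refine ⟨φ p, φ q, φ r, φ s, ?_, ?_⟩
  · rw [← map_mul, ← map_mul, ← map_sub]
    exact (map_ne_zero φ).2 hd
  · have := congrArg (NR.mp φ) h
    rw [mp_sc, mp_sub] at this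
    simpa only [map_pow, map_sub, map_mul] using this

end mp

end Pool.Agent.L0h50.SB
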