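import Pool.Agent.L0h50.NR.Stm

/-!
# Project SB (helper50): 2-Selmer groups of the curves on a vertical line over a number field

Statements of the modules. `Q4`, `Q4.I`, `Q4.J`, `Q4.sub` are in `Pool/Agent/L0h45/AR/Stm.lean`, and `mp`,
`Eqv`, `NoRoot`, `Den`, `DenQ`, `Bd` in `Pool/Agent/L0h50/NR/Stm.lean`.
-/

set_option autoImplicit false

open NumberField IsDedekindDomain
open scoped Classical

namespace Pool.Agent.L0h50.SB

open Pool.Agent.L0h45.AR (Q4)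
open Pool.Agent.L0h50.NR (mp Eqv NoRoot Den DenQ Bd)

section ring

variable {R : Type} [CommRing R]

/-- the value `G(x, y)` -/
def val (G : Q4 R) (x y : R) : R :=
  G.a * x ^ 4 + G.b * x ^ 3 * y + G.c * x ^ 2 * y ^ 2 + G.d * x * y ^ 3 + G.e * y ^ 4

/-- the multiple `t G` -/
def sc (t : R) (G : Q4 R) : Q4 R := ⟨t * G.a, t * G.b, t * G.c, t * G.d, t * G.e⟩

end ring

section field

variable {K : Type} [Field K]

/-- equivalence: `H = G(γ) / (det γ)²` for some `γ` in `GL₂(K)` -/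
def Equ (G H : Q4 K) : Prop :=
  ∃ p q r s : K, p * s - q * r ≠ 0 ∧ sc ((p * s - q * r) ^ 2) H = G.sub p q r s

/-- the curve `z² = G(x, y)` has a point over `K` with `z ≠ 0` -/
def Sol (G : Q4 K) : Prop := ∃ x y z : K, z ≠ 0 ∧ z ^ 2 = val G x y

/-- the coefficients are in `O` -/
def InQ (O : ValuationSubring K) (G : Q4 K) : Prop := G.a ∈ O ∧ G.b ∈ O ∧ G.c ∈ O ∧ G.d ∈ O ∧ G.e ∈ O

end field

section nf

variable {F : Type} [Field F] [NumberField F]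

/-- the coefficients are integral at `v` -/
def VInt (v : HeightOneSpectrum (𝓞 F)) (G : Q4 F) : Prop :=
  v.valuation F G.a ≤ 1 ∧ v.valuation F G.b ≤ 1 ∧ v.valuation F G.c ≤ 1 ∧ v.valuation F G.d ≤ 1 ∧
    v.valuation F G.e ≤ 1

/-- `z² = G(x, y)` is soluble over all completions of `F` -/
def LocSol (G : Q4 F) : Prop :=
  (∀ v : HeightOneSpectrum (𝓞 F), Sol (mp (algebraMap F (v.adicCompletion F)) G)) ∧
  ∀ w : InfinitePlace F, Sol (mp (algebraMap F w.Completion) G)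

end nf

/-- LOC: a soluble form with integral invariants `- 48 A`, `- 1728 B` is equivalent to an integral form. -/
def S_LOC : Prop := ∀ (K : Type) [Field K] [CharZero K] (O : ValuationSubring K) (A B : K) (G : Q4 K),
  A ∈ O → B ∈ O → G.I = - 48 * A → G.J = - 1728 * B → Sol G → ∃ H : Q4 K, Equ G H ∧ InQ O H

/-- DNS: density of `F` in the completion. -/
def S_DNS : Prop := ∀ (F : Type) [Field F] [NumberField F] (v : HeightOneSpectrum (𝓞 F)) (G : Q4 F),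
  (∃ H : Q4 (v.adicCompletion F), Equ (mp (algebraMap F (v.adicCompletion F)) G) H ∧
    InQ (v.adicCompletionIntegers F) H) → ∃ H : Q4 F, Equ G H ∧ VInt v H

/-- LAT: lattices in `F²` are nearly free (class group). -/
def S_LAT : Prop := ∀ (F : Type) [Field F] [NumberField F], ∃ n : ℕ, 0 < n ∧
  ∀ L : Submodule (𝓞 F) (F × F), (∃ m : ℕ, 0 < m ∧
    (∀ x y : 𝓞 F, ((m : F) * x, (m : F) * y) ∈ L) ∧ ∀ z ∈ L, Den m z.1 ∧ Den m z.2) →
  ∃ p q r s : F, p * s - q * r ≠ 0 ∧ (∀ x y : 𝓞 F, (p * x + q * y, r * x + s * y) ∈ L) ∧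
    ∀ z ∈ L, ∃ x y : 𝓞 F, (n : F) * z.1 = p * x + q * y ∧ (n : F) * z.2 = r * x + s * y

/-- CRT: a number congruent to `1` at `v` and divisible by high powers of other primes. -/
def S_CRT : Prop := ∀ (F : Type) [Field F] [NumberField F] (v : HeightOneSpectrum (𝓞 F))
  (S : Finset (HeightOneSpectrum (𝓞 F))) (c : F), c ≠ 0 → v ∉ S → ∃ t : 𝓞 F, v.valuation F (t : F) = 1 ∧
    ∀ w ∈ S, w.valuation F (t : F) ≤ w.valuation F c

/-- GLU: a form which is equivalent to an integral form at every prime is equivalent to a form with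
bounded denominators. -/
def S_GLU : Prop := ∀ (F : Type) [Field F] [NumberField F], ∃ M : ℕ, 0 < M ∧
  ∀ G : Q4 F, (∀ v : HeightOneSpectrum (𝓞 F), ∃ H : Q4 F, Equ G H ∧ VInt v H) →
    ∃ H : Q4 F, Equ G H ∧ DenQ M H

/-- RT: the forms with a root and given invariants are equivalent. -/
def S_RT : Prop := ∀ (K : Type) [Field K] [CharZero K] (A B : K) (G H : Q4 K),
  4 * A ^ 3 + 27 * B ^ 2 ≠ 0 → G.I = - 48 * A → G.J = - 1728 * B → H.I = - 48 * A → H.J = - 1728 * B →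
  ¬ NoRoot G → ¬ NoRoot H → Equ G H

/-- SCL: a nonzero integer with small prescribed absolute values (Minkowski). -/
def S_SCL : Prop := ∀ (F : Type) [Field F] [NumberField F], ∃ C : ℝ, 1 ≤ C ∧
  ∀ t : InfinitePlace F → ℝ, (∀ w, 0 < t w) → 1 ≤ ∏ w, t w ^ w.mult →
    ∃ u : 𝓞 F, u ≠ 0 ∧ ∀ w : InfinitePlace F, w (u : F) ≤ C * t w

/-- BX: many integers in a box. -/
def S_BX : Prop := ∀ (F : Type) [Field F] [NumberField F], ∃ c : ℝ, 0 < c ∧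
  ∀ R : InfinitePlace F → ℝ, (∀ w, 0 < R w) → 1 ≤ ∏ w, R w ^ w.mult →
    {b : 𝓞 F | ∀ w : InfinitePlace F, w (b : F) ≤ R w}.Finite ∧
    c * ∏ w, R w ^ w.mult ≤ ({b : 𝓞 F | ∀ w : InfinitePlace F, w (b : F) ≤ R w}.ncard : ℝ)

/-- COS: representatives with bounded denominators for the classes in the Selmer group. -/
def S_COS : Prop := ∀ (F : Type) [Field F] [NumberField F], ∃ M : ℕ, 0 < M ∧
  ∀ A B : 𝓞 F, 4 * A ^ 3 + 27 * B ^ 2 ≠ 0 → ∀ 𝒮 : Finset (Q4 F),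
  (∀ G ∈ 𝒮, G.I = - 48 * A ∧ G.J = - 1728 * B ∧ LocSol G) →
  (∀ G ∈ 𝒮, ∀ H ∈ 𝒮, G ≠ H → ¬ Equ G H) →
  ∃ S : Finset (Q4 F), 𝒮.card ≤ S.card + 1 ∧
    (∀ G ∈ S, G.I = - 48 * A ∧ G.J = - 1728 * B ∧ NoRoot G ∧ DenQ M G) ∧
    ∀ G ∈ S, ∀ H ∈ S, G ≠ H → ¬ Eqv G H

/-- LN: the sum over the curves on a vertical line. -/
def S_LN : Prop := ∀ (F : Type) [Field F] [NumberField F], ∃ C : ℝ, 0 < C ∧
  ∀ X : ℝ, 1 ≤ X → ∀ A : 𝓞 F, (∀ σ : F →+* ℂ, ‖σ (A : F)‖ ^ 3 ≤ X ^ 2) → ∀ S : Finset (𝓞 F),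
  (∀ B ∈ S, 4 * A ^ 3 + 27 * B ^ 2 ≠ 0 ∧ Bd (B : F) X) →
  ∀ 𝒮 : 𝓞 F → Finset (Q4 F), (∀ B ∈ S, (∀ G ∈ 𝒮 B, G.I = - 48 * A ∧ G.J = - 1728 * B ∧ LocSol G) ∧
    ∀ G ∈ 𝒮 B, ∀ H ∈ 𝒮 B, G ≠ H → ¬ Equ G H) →
  ∑ B ∈ S, ((𝒮 B).card : ℝ) ≤ C * X ^ Module.finrank ℚ F

end Pool.Agent.L0h50.SB
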